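import Pool.Agent.H334.Master

/-!
MP_04dca5_al: conditions on the large finite blocks of a transitive finitary group under which it
is not barely transitive.
-/

set_option autoImplicit false

namespace Pool.Agent.Results.MP_04dca5_al.LargeBlocks

open Equiv Pool.Agent.H334.Returns

variable {Ω : Type*}

/-- `B` is a finite block of `G`: every `g ∈ G` maps `B` to `B` or to a set disjoint from `B`. -/
def FiniteBlock (G : Subgroup (Perm Ω)) (B : Set Ω) : Prop :=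
  B.Finite ∧ ∀ g ∈ G, ⇑g '' B = B ∨ Disjoint (⇑g '' B) B

/-- `t` is an element of `G` with support in `B`. -/
def Inside (G : Subgroup (Perm Ω)) (B : Set Ω) (t : Perm Ω) : Prop :=
  t ∈ G ∧ ∀ c, c ∉ B → t c = c

/-- For some `y ∈ G` and `a ∈ B` with `y a ∉ B`, the first point `y ^ q a`, `q > 0`, which lies
in `B` is the image of `a` under an element of `G` with support in `B`. -/
def ReturnsInside (G : Subgroup (Perm Ω)) (B : Set Ω) : Prop :=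
  ∃ y ∈ G, ∃ t, Inside G B t ∧ ∃ a ∈ B, ∃ q : ℕ, 0 < q ∧ y a ∉ B ∧
    (∀ j, 0 < j → j < q → (y ^ j) a ∉ B) ∧ t a = (y ^ q) a

/-- Some cycle of an element of `G` is not contained in `B` and meets `B` in at least one and at
most `k` points. -/
def MeetsFew (G : Subgroup (Perm Ω)) (k : ℕ) (B : Set Ω) : Prop :=
  ∃ y ∈ G, ∃ a ∈ B, (∃ n : ℤ, (y ^ n) a ∉ B) ∧ (B ∩ {b | ∃ n : ℤ, (y ^ n) a = b}).ncard ≤ k

/-- `k > 0` and the `k`-th power of every element of `G` stabilising `B` agrees on `B` with an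
element of `G` with support in `B`. -/
def PowersInside (G : Subgroup (Perm Ω)) (k : ℕ) (B : Set Ω) : Prop :=
  0 < k ∧ ∀ g ∈ G, ⇑g '' B = B → ∃ t, Inside G B t ∧ ∀ a ∈ B, t a = (g ^ k) a

/-- For every `y ∈ G` moving the block `B` there are `s, t ∈ G` with support in `B` such that some
power of `y * s` agrees with `t` on `B` and `t` moves some translate `c E` of the block `E`. -/
def MovesInside (G : Subgroup (Perm Ω)) (E B : Set Ω) : Prop :=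
  ∀ y ∈ G, ⇑y '' B ≠ B → ∃ s t, Inside G B s ∧ Inside G B t ∧ ∃ m : ℕ,
    (∀ a ∈ B, t a = ((y * s) ^ m) a) ∧ ∃ c ∈ G, ⇑t '' (⇑c '' E) ≠ ⇑c '' E

theorem result [Infinite Ω] (G : Subgroup (Perm Ω))
    (hfin : ∀ g ∈ G, {a : Ω | g a ≠ a}.Finite)
    (htr : ∀ a b : Ω, ∃ g ∈ G, g a = b)
    (h : ∀ E : Set Ω, FiniteBlock G E → E.Nonempty → ∃ k : ℕ, ∀ F : Set Ω, F.Finite →
      ∃ B : Set Ω, F ⊆ B ∧ E ⊆ B ∧ FiniteBlock G B ∧
        (ReturnsInside G B ∨ MeetsFew G k B ∨ PowersInside G k B ∨ MovesInside G E B)) :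
    ∃ H : Subgroup (Perm Ω), H < G ∧ ∃ a : Ω, {b | ∃ h ∈ H, h a = b}.Infinite := by
  obtain ⟨H, hH, a, ha⟩ := master (G := G) (Ω := Ω) (fun g => hfin g g.2)
    (by
      intro a b
      obtain ⟨g, hg, hab⟩ := htr a b
      exact ⟨⟨g, hg⟩, hab⟩)
    (by
      intro E hEf hE hEne
      obtain ⟨k, hk⟩ := h E ⟨hEf, fun g hg => of_blk hE ⟨g, hg⟩⟩ hEne
      refine ⟨k, fun F hF => ?_⟩
      obtain ⟨B, hFB, hEB, ⟨hBf, hBb⟩, hB⟩ := hk F hF
      refine ⟨B, hFB, hEB, hBf, blk_of (fun g => hBb g g.2), ?_⟩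
      rcases hB with ⟨y, hy, t, ⟨ht, hts⟩, a, ha, q, hq, hya, hlt, hta⟩ |
        ⟨y, hy, a, ha, ⟨n, hn⟩, hc⟩ | ⟨hk0, hp⟩ | hm
      · exact Or.inl ⟨⟨t, ht⟩, ⟨y, hy⟩, a, ha, q, hq, hya, hlt, hts, hta⟩
      · exact Or.inr (Or.inl ⟨⟨y, hy⟩, a, ha, ⟨n, hn⟩, hc⟩)
      · refine Or.inr (Or.inr (Or.inl ⟨hk0, fun g hg => ?_⟩))
        obtain ⟨t, ⟨ht, hts⟩, hta⟩ := hp g g.2 (mem_U_iff_image.1 hg)
        exact ⟨⟨t, ht⟩, hts, hta⟩
      · refine Or.inr (Or.inr (Or.inr (fun y hy => ?_)))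
        obtain ⟨s, t, ⟨hs, hss⟩, ⟨ht, hts⟩, m, hm1, c, hc, hm2⟩ :=
          hm y y.2 (fun h => hy (mem_U_iff_image.2 h))
        refine ⟨⟨s, hs⟩, ⟨t, ht⟩, m, hss, hts, hm1, ⟨c⁻¹, inv_mem hc⟩, fun h => hm2 ?_⟩
        exact image_of_conj (c := (⟨c, hc⟩ : G)) (t := (⟨t, ht⟩ : G)) (by
          have h1 : (⟨c, hc⟩ : G)⁻¹ * ⟨t, ht⟩ * ⟨c, hc⟩
              = (⟨c⁻¹, inv_mem hc⟩ : G) * ⟨t, ht⟩ * (⟨c⁻¹, inv_mem hc⟩ : G)⁻¹ := by
            apply Subtype.ext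
            simp
          rw [h1]
          exact h))
  refine ⟨H.map G.subtype, lt_of_le_of_ne (Subgroup.map_subtype_le H) ?_, a, ?_⟩
  · intro h
    apply hH
    rw [Subgroup.eq_top_iff']
    intro g
    have h1 : (g : Perm Ω) ∈ H.map G.subtype := by rw [h]; exact g.2
    obtain ⟨k, hk, hkg⟩ := Subgroup.mem_map.1 h1
    have h2 : k = g := Subtype.ext hkg
    rwa [h2] at hk
  · refine ha.mono ?_
    rintro _ ⟨⟨g, hg⟩, rfl⟩
    exact ⟨(g : Perm Ω), Subgroup.mem_map.2 ⟨g, hg, rfl⟩, rfl⟩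

end Pool.Agent.Results.MP_04dca5_al.LargeBlocks
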